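import Pool.Agent.H20.LIM.Targets

/-!
# Limits of L-functions: AVC (averages converge in L1)
-/

set_option autoImplicit false

open Complex MeasureTheory Set Filter Topology Metric

namespace Pool.Agent.H74.LIM

open Pool.Agent.H20.LIM

theorem av_eq (ρ : ℝ) (v : ℂ → ℝ) (z : ℂ) :
    av ρ v z = (volume.real (ball (0 : ℂ) ρ))⁻¹ * ∫ h in ball (0 : ℂ) ρ, v (z + h) := by
  unfold av
  rw [setAverage_eq, smul_eq_mul]
  have h1 : volume.real (ball z ρ) = volume.real (ball (0 : ℂ) ρ) := by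
    unfold Measure.real
    rw [Measure.addHaar_ball_center]
  have h2 := (measurePreserving_add_left (volume : Measure ℂ) z).setIntegral_preimage_emb
    (measurableEmbedding_addLeft z) v (ball z ρ)
  have h3 : (fun x => z + x) ⁻¹' ball z ρ = ball (0 : ℂ) ρ := by
    ext x
    simp [dist_eq_norm]
  rw [h3] at h2
  rw [h1, h2]

theorem locInt_shift {v : ℂ → ℝ} (hv : LocallyIntegrable v volume) (ρ : ℝ) (z : ℂ) :
    IntegrableOn (fun h => v (z + h)) (ball (0 : ℂ) ρ) volume := by
  have h1 : IntegrableOn v (ball z ρ) volume :=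
    (hv.integrableOn_isCompact (isCompact_closedBall z ρ)).mono_set ball_subset_closedBall
  have h2 := ((measurePreserving_add_left (volume : Measure ℂ) z).integrableOn_comp_preimage
    (measurableEmbedding_addLeft z) (f := v) (s := ball z ρ)).2 h1
  have h3 : (fun x => z + x) ⁻¹' ball z ρ = ball (0 : ℂ) ρ := by
    ext x
    simp [dist_eq_norm]
  rw [h3] at h2
  exact h2

theorem avc_meas (v : ℂ → ℝ) (hm : Measurable v) (hv : LocallyIntegrable v volume)
    (R δ ρ : ℝ) (hρ : 0 < ρ)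
    (h : ∀ h : ℂ, ‖h‖ ≤ ρ → L1 R (fun z => v (z + h) - v z) ≤ ENNReal.ofReal δ) :
    L1 R (fun z => av ρ v z - v z) ≤ ENNReal.ofReal δ := by
  set B : Set ℂ := ball (0 : ℂ) ρ with hB
  have hB0 : volume B ≠ 0 := (measure_ball_pos volume _ hρ).ne'
  have hBt : volume B ≠ ⊤ := measure_ball_lt_top.ne
  have hBr : volume.real B ≠ 0 := by
    unfold Measure.real
    exact ENNReal.toReal_ne_zero.2 ⟨hB0, hBt⟩
  have h1 : ∀ z : ℂ, ‖av ρ v z - v z‖ₑ ≤ (volume B)⁻¹ * ∫⁻ h in B, ‖v (z + h) - v z‖ₑ := by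
    intro z
    have e1 : av ρ v z - v z = (volume.real B)⁻¹ * ∫ h in B, (v (z + h) - v z) := by
      rw [integral_sub (locInt_shift hv ρ z) (by
        exact integrableOn_const hBt), av_eq, mul_sub, setIntegral_const, smul_eq_mul,
        ← mul_assoc, inv_mul_cancel₀ hBr, one_mul]
    rw [e1, enorm_mul]
    have e2 : ‖(volume.real B)⁻¹‖ₑ = (volume B)⁻¹ := by
      unfold Measure.real
      rw [← ENNReal.toReal_inv, Real.enorm_of_nonneg ENNReal.toReal_nonneg, ENNReal.ofReal_toReal]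
      exact ENNReal.inv_ne_top.2 hB0
    rw [e2]
    exact mul_le_mul_right (enorm_integral_le_lintegral_enorm _) _
  unfold L1
  calc ∫⁻ z in closedBall (0 : ℂ) R, ‖av ρ v z - v z‖ₑ
      ≤ ∫⁻ z in closedBall (0 : ℂ) R, (volume B)⁻¹ * ∫⁻ h in B, ‖v (z + h) - v z‖ₑ :=
        lintegral_mono fun z => h1 z
    _ = (volume B)⁻¹ * ∫⁻ z in closedBall (0 : ℂ) R, ∫⁻ h in B, ‖v (z + h) - v z‖ₑ :=
        lintegral_const_mul' _ _ (ENNReal.inv_ne_top.2 hB0)
    _ = (volume B)⁻¹ * ∫⁻ h in B, ∫⁻ z in closedBall (0 : ℂ) R, ‖v (z + h) - v z‖ₑ := by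
        rw [lintegral_lintegral_swap]
        apply Measurable.aemeasurable
        apply Measurable.enorm
        exact (hm.comp (measurable_fst.add measurable_snd)).sub (hm.comp measurable_fst)
    _ ≤ (volume B)⁻¹ * ∫⁻ h in B, ENNReal.ofReal δ := by
        refine mul_le_mul_right (setLIntegral_mono' measurableSet_ball fun w hw => ?_) _
        exact h w (by
          rw [mem_ball_zero_iff] at hw
          exact hw.le)
    _ = ENNReal.ofReal δ := by
        rw [setLIntegral_const, mul_comm (ENNReal.ofReal δ), ← mul_assoc,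
          ENNReal.inv_mul_cancel hB0 hBt, one_mul]

theorem pf_avc (hTRA : T_TRA) : T_AVC := by
  intro v hv R δ hδ
  have hsm := hv.aestronglyMeasurable
  set v' : ℂ → ℝ := hsm.mk v with hv'
  have hae : v =ᵐ[volume] v' := hsm.ae_eq_mk
  have hm : Measurable v' := hsm.stronglyMeasurable_mk.measurable
  have hloc : LocallyIntegrable v' volume := hv.congr hae
  obtain ⟨η, hη, h1, -⟩ := hTRA v' hloc R δ hδ
  refine ⟨η, hη, fun ρ hρ hρη => ?_⟩
  have h2 := avc_meas v' hm hloc R δ ρ hρ fun h hh => h1 h (hh.trans hρη)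
  refine le_trans (le_of_eq ?_) h2
  unfold L1
  refine lintegral_congr_ae ?_
  have h3 : ∀ z, av ρ v z = av ρ v' z := by
    intro z
    unfold av
    exact average_congr (ae_restrict_of_ae hae)
  filter_upwards [ae_restrict_of_ae hae] with z hz
  rw [h3, hz]

end Pool.Agent.H74.LIM
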