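import Pool.Agent.H20.LIM.Targets2
import Pool.Agent.H61.GLH.CircleCount

/-!
# Limits of L-functions: RIE (the Riesz measure of the logarithm of an analytic function)
-/

set_option autoImplicit false

open Complex MeasureTheory Set Filter Topology Metric Laplacian

namespace Pool.Agent.H74.LIM

open Pool.Agent.H20.LIM

theorem lap_cont {φ : ℂ → ℝ} (hφ : ContDiff ℝ 2 φ) : Continuous (Δ φ) := by
  rw [InnerProductSpace.laplacian_eq_iteratedFDeriv_complexPlane]
  have h := hφ.continuous_iteratedFDeriv (m := 2) le_rfl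
  exact ((ContinuousMultilinearMap.apply ℝ (fun _ : Fin 2 => ℂ) ℝ ![1, 1]).continuous.comp h).add
    ((ContinuousMultilinearMap.apply ℝ (fun _ : Fin 2 => ℂ) ℝ ![Complex.I, Complex.I]).continuous.comp
      h)

theorem lap_zero {φ : ℂ → ℝ} {z : ℂ} (hz : z ∉ tsupport φ) : (Δ φ) z = 0 := by
  have h1 : φ =ᶠ[𝓝 z] fun _ => (0 : ℝ) := by
    have := notMem_tsupport_iff_eventuallyEq.1 hz
    exact this
  have h2 := (InnerProductSpace.laplacian_congr_nhds h1).eq_of_nhds
  rw [h2, InnerProductSpace.laplacian_const]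
  rfl

theorem harm_int (hLAP : T_LAP) (hSAD : T_SAD) (hPOL : T_POL) {k : ℂ → ℂ} {R : ℝ}
    (hk : AnalyticOnNhd ℂ k (closedBall 0 R)) (hk0 : ∀ z ∈ closedBall (0 : ℂ) R, k z ≠ 0)
    {φ : ℂ → ℝ} (hφ : ContDiff ℝ 2 φ) (hs : tsupport φ ⊆ ball 0 R) :
    Integrable (fun z => Real.log ‖k z‖ * (Δ φ) z) ∧ ∫ z, Real.log ‖k z‖ * (Δ φ) z = 0 := by
  classical
  have hcs : HasCompactSupport φ :=
    (isCompact_closedBall (0 : ℂ) R).of_isClosed_subset (isClosed_tsupport φ)
      (hs.trans ball_subset_closedBall)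
  set h : ℂ → ℝ := (closedBall (0 : ℂ) R).indicator (fun z => Real.log ‖k z‖) with hh
  have hin : ∀ z ∈ closedBall (0 : ℂ) R, h z = Real.log ‖k z‖ := fun z hz =>
    Set.indicator_of_mem hz _
  have hcont : ContinuousOn (fun z => Real.log ‖k z‖) (closedBall (0 : ℂ) R) :=
    hk.continuousOn.norm.log fun z hz => norm_ne_zero_iff.2 (hk0 z hz)
  have hint : Integrable h volume := by
    rw [hh, integrable_indicator_iff measurableSet_closedBall]
    exact hcont.integrableOn_compact (isCompact_closedBall 0 R)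
  have hLc := lap_cont hφ
  have hLs : HasCompactSupport (Δ φ) := by
    refine HasCompactSupport.intro hcs fun z hz => lap_zero hz
  obtain ⟨C, hC⟩ := hLc.bounded_above_of_compact_support hLs
  have hI1 : Integrable (fun z => h z * (Δ φ) z) :=
    hint.mul_bdd hLc.aestronglyMeasurable (Filter.Eventually.of_forall hC)
  have heq : (fun z => Real.log ‖k z‖ * (Δ φ) z) = fun z => h z * (Δ φ) z := by
    funext z
    by_cases hz : z ∈ tsupport φ
    · rw [hin z (ball_subset_closedBall (hs hz))]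
    · rw [lap_zero hz, mul_zero, mul_zero]
  rw [heq]
  refine ⟨hI1, ?_⟩
  -- the mean value property near the support
  obtain ⟨d, hd, hdK⟩ := hcs.exists_thickening_subset_open isOpen_ball hs
  have hmean : ∀ r : ℝ, 0 < r → r < d → ∀ z ∈ tsupport φ, av r h z = h z := by
    intro r hr hrd z hz
    have hsub : ∀ ρ : ℝ, |ρ| ≤ r → closedBall z |ρ| ⊆ closedBall (0 : ℂ) R := by
      intro ρ hρ w hw
      refine ball_subset_closedBall (hdK ?_)
      rw [mem_thickening_iff]
      exact ⟨z, hz, lt_of_le_of_lt (mem_closedBall.1 hw) (lt_of_le_of_lt hρ hrd)⟩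
    rw [hPOL h z r hr hint.integrableOn]
    have h1 : ∀ ρ ∈ Set.uIcc (0 : ℝ) r, ρ * Real.circleAverage h z ρ = ρ * Real.log ‖k z‖ := by
      intro ρ hρ
      rw [uIcc_of_le hr.le] at hρ
      have hρ' : |ρ| ≤ r := by
        rw [abs_of_nonneg hρ.1]
        exact hρ.2
      congr 1
      rw [Real.circleAverage_congr_sphere (f₂ := fun w => Real.log ‖k w‖)
        fun w hw => hin w (hsub ρ hρ' (sphere_subset_closedBall hw))]
      exact AnalyticOnNhd.circleAverage_log_norm_of_ne_zero (hk.mono (hsub ρ hρ'))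
        fun u hu => hk0 u (hsub ρ hρ' hu)
    rw [intervalIntegral.integral_congr h1, intervalIntegral.integral_mul_const, integral_id,
      hin z (ball_subset_closedBall (hs hz))]
    field_simp
    ring
  have hφc : Continuous φ := hφ.continuous
  obtain ⟨C', hC'⟩ := hφc.bounded_above_of_compact_support hcs
  have hI2 : Integrable (fun z => h z * φ z) :=
    hint.mul_bdd hφc.aestronglyMeasurable (Filter.Eventually.of_forall hC')
  have hloc : LocallyIntegrable h volume := hint.locallyIntegrable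
  have hzero : ∀ r : ℝ, 0 < r → r < d →
      Integrable (fun z => h z * (8 / r ^ 2 * (av r φ z - φ z))) ∧
      ∫ z, h z * (8 / r ^ 2 * (av r φ z - φ z)) = 0 := by
    intro r hr hrd
    obtain ⟨j1, j2, j3⟩ := hSAD h φ r hr hloc hφc hcs
    have e1 : (fun z => h z * (8 / r ^ 2 * (av r φ z - φ z))) =
        fun z => 8 / r ^ 2 * (h z * av r φ z - h z * φ z) := by
      funext z
      ring
    rw [e1]
    refine ⟨(j1.sub hI2).const_mul _, ?_⟩
    rw [integral_const_mul, integral_sub j1 hI2, j3]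
    have e2 : (fun z => av r h z * φ z) = fun z => h z * φ z := by
      funext z
      by_cases hz : z ∈ tsupport φ
      · rw [hmean r hr hrd z hz]
      · rw [image_eq_zero_of_notMem_tsupport hz, mul_zero, mul_zero]
    rw [e2, sub_self, mul_zero]
  have hmain : ∀ δ : ℝ, 0 < δ → |∫ z, h z * (Δ φ) z| ≤ δ * ∫ z, |h z| := by
    intro δ hδ
    obtain ⟨r₀, hr₀, hL⟩ := hLAP φ hφ hcs δ hδ
    set r : ℝ := min r₀ (d / 2) with hr
    have hr0 : 0 < r := lt_min hr₀ (by positivity)
    have hrd : r < d := lt_of_le_of_lt (min_le_right _ _) (by linarith)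
    obtain ⟨i1, i2⟩ := hzero r hr0 hrd
    have e1 : ∫ z, h z * (Δ φ) z =
        ∫ z, (h z * (Δ φ) z - h z * (8 / r ^ 2 * (av r φ z - φ z))) := by
      rw [integral_sub hI1 i1, i2, sub_zero]
    rw [e1, ← Real.norm_eq_abs, ← integral_const_mul]
    refine norm_integral_le_of_norm_le (hint.abs.const_mul δ)
      (Filter.Eventually.of_forall fun z => ?_)
    rw [← mul_sub, Real.norm_eq_abs, abs_mul, mul_comm δ]
    refine mul_le_mul_of_nonneg_left ?_ (abs_nonneg _)
    rw [abs_sub_comm]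
    exact hL r hr0 (min_le_left _ _) z
  by_contra hne
  have hpos : 0 < |∫ z, h z * (Δ φ) z| := abs_pos.2 hne
  have hA : 0 ≤ ∫ z, |h z| := integral_nonneg fun z => abs_nonneg _
  have h3 := hmain (|∫ z, h z * (Δ φ) z| / (2 * ((∫ z, |h z|) + 1))) (by positivity)
  have h4 : |∫ z, h z * (Δ φ) z| / (2 * ((∫ z, |h z|) + 1)) * ∫ z, |h z| ≤
      |∫ z, h z * (Δ φ) z| / 2 := by
    rw [div_mul_eq_mul_div, div_le_div_iff₀ (by positivity) (by positivity)]
    nlinarith
  linarith

theorem pf_rie (hLAP : T_LAP) (hSAD : T_SAD) (hFUN : T_FUN) (hPOL : T_POL) : T_RIE := by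
  classical
  intro f R φ hR hf hne hφ hs
  obtain ⟨z1, hz1, hz1f⟩ := hne
  have hcs : HasCompactSupport φ :=
    (isCompact_closedBall (0 : ℂ) R).of_isClosed_subset (isClosed_tsupport φ)
      (hs.trans ball_subset_closedBall)
  obtain ⟨hfin, hord⟩ := Pool.Agent.H61.GLH.finite_zeros hf (ball_subset_closedBall hz1) hz1f
  -- a smaller disc
  obtain ⟨R', hR'R, hsR'⟩ : ∃ R' : ℝ, R' < R ∧ tsupport φ ⊆ ball 0 R' := by
    rcases (tsupport φ).eq_empty_or_nonempty with h | h
    · refine ⟨R / 2, by linarith, ?_⟩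
      rw [h]
      exact empty_subset _
    · obtain ⟨z0, hz0, hmax⟩ := IsCompact.exists_isMaxOn hcs h continuous_norm.continuousOn
      have h0 : ‖z0‖ < R := mem_ball_zero_iff.1 (hs hz0)
      refine ⟨(‖z0‖ + R) / 2, by linarith, fun z hz => ?_⟩
      rw [mem_ball_zero_iff]
      have : ‖z‖ ≤ ‖z0‖ := hmax hz
      linarith
  have hsub : closedBall (0 : ℂ) R' ⊆ ball 0 R := closedBall_subset_ball hR'R
  set Z : Finset ℂ := hfin.toFinset.filter fun z => z ∈ ball (0 : ℂ) R with hZ
  have hZb : ∀ w ∈ Z, w ∈ ball (0 : ℂ) R := fun w hw => (Finset.mem_filter.1 hw).2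
  obtain ⟨k, hk, hfk, hkZ⟩ := Pool.Agent.H61.GLH.factor_finset isOpen_ball Z
    (hf.mono ball_subset_closedBall) hZb fun w hw => hord w (ball_subset_closedBall (hZb w hw))
  have hk0 : ∀ z ∈ ball (0 : ℂ) R, k z ≠ 0 := by
    intro z hz h0
    have h1 : f z = 0 := by rw [hfk z hz, h0, mul_zero]
    have h2 : z ∈ Z := by
      rw [hZ, Finset.mem_filter, Set.Finite.mem_toFinset]
      exact ⟨⟨ball_subset_closedBall hz, h1⟩, hz⟩
    exact hkZ z h2 h0
  obtain ⟨i1, i2⟩ := harm_int hLAP hSAD hPOL (hk.mono hsub) (fun z hz => hk0 z (hsub hz)) hφ hsR'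
  -- the logarithm
  have hlog : ∀ z ∈ ball (0 : ℂ) R, z ∉ Z → Real.log ‖f z‖ =
      ∑ w ∈ Z, (analyticOrderNatAt f w : ℝ) * Real.log ‖z - w‖ + Real.log ‖k z‖ := by
    intro z hz hzZ
    have hzw : ∀ w ∈ Z, ‖z - w‖ ≠ 0 := by
      intro w hw h
      rw [norm_eq_zero, sub_eq_zero] at h
      exact hzZ (h ▸ hw)
    rw [hfk z hz, norm_mul, norm_prod, Real.log_mul (Finset.prod_ne_zero_iff.2 fun w hw => by
      rw [norm_pow]
      exact pow_ne_zero _ (hzw w hw)) (norm_ne_zero_iff.2 (hk0 z hz)), Real.log_prod fun w hw => by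
      rw [norm_pow]
      exact pow_ne_zero _ (hzw w hw)]
    congr 1
    refine Finset.sum_congr rfl fun w hw => ?_
    rw [norm_pow, Real.log_pow]
  have hae : (fun z => Real.log ‖f z‖ * (Δ φ) z) =ᵐ[volume] fun z =>
      ∑ w ∈ Z, (analyticOrderNatAt f w : ℝ) * (Real.log ‖z - w‖ * (Δ φ) z) +
        Real.log ‖k z‖ * (Δ φ) z := by
    have hnull : ∀ᵐ z : ℂ, z ∉ (Z : Set ℂ) := by
      rw [ae_iff]
      simp only [not_not]
      exact Set.Finite.measure_zero Z.finite_toSet volume
    filter_upwards [hnull] with z hz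
    by_cases hzs : z ∈ tsupport φ
    · rw [hlog z (hs hzs) hz, add_mul, Finset.sum_mul]
      congr 1
      refine Finset.sum_congr rfl fun w _ => ?_
      ring
    · rw [lap_zero hzs]
      simp
  have hIs : ∀ w ∈ Z, Integrable fun z =>
      (analyticOrderNatAt f w : ℝ) * (Real.log ‖z - w‖ * (Δ φ) z) :=
    fun w _ => (hFUN φ hφ hcs w).1.const_mul _
  have hIsum : Integrable fun z =>
      ∑ w ∈ Z, (analyticOrderNatAt f w : ℝ) * (Real.log ‖z - w‖ * (Δ φ) z) :=
    integrable_finsetSum _ hIs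
  refine ⟨(hIsum.add i1).congr hae.symm, ?_⟩
  rw [integral_congr_ae hae, integral_add hIsum i1, i2, add_zero, integral_finsetSum _ hIs]
  rw [finsum_eq_sum_of_support_subset (s := Z), Finset.mul_sum]
  · refine Finset.sum_congr rfl fun w _ => ?_
    rw [integral_const_mul, (hFUN φ hφ hcs w).2]
    ring
  · intro w hw
    rw [Function.mem_support] at hw
    have h1 : φ w ≠ 0 := right_ne_zero_of_mul hw
    have h2 : (analyticOrderNatAt f w : ℝ) ≠ 0 := left_ne_zero_of_mul hw
    have h3 : w ∈ ball (0 : ℂ) R := hs (subset_tsupport φ (Function.mem_support.2 h1))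
    rw [Finset.mem_coe, hZ, Finset.mem_filter, Set.Finite.mem_toFinset]
    refine ⟨⟨ball_subset_closedBall h3, ?_⟩, h3⟩
    by_contra h4
    apply h2
    rw [analyticOrderNatAt, (hf w (ball_subset_closedBall h3)).analyticOrderAt_eq_zero.2 h4]
    simp

end Pool.Agent.H74.LIM
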