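import Pool.Agent.H20.LIM.Targets

/-!
# Limits of L-functions: SMP (the strong maximum principle)
-/

set_option autoImplicit false

open Complex MeasureTheory Set Filter Topology Metric

namespace Pool.Agent.H74.LIM

open Pool.Agent.H20.LIM

theorem pf_smp : T_SMP := by
  intro u G hu hsub hGo hGc hle hz0
  set W : Set ℂ := {z | z ∈ G ∧ ∃ ρ : ℝ, 0 < ρ ∧ ∀ᵐ w : ℂ, w ∈ ball z ρ → u w = 0} with hW
  have hWo : IsOpen W := by
    rw [Metric.isOpen_iff]
    rintro z ⟨hzG, ρ, hρ, hz⟩
    obtain ⟨ε, hε, hεG⟩ := Metric.isOpen_iff.1 hGo z hzG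
    refine ⟨min ε ρ, lt_min hε hρ, fun z' hz' => ⟨hεG (ball_subset_ball (min_le_left _ _) hz'), ?_⟩⟩
    rw [mem_ball] at hz'
    refine ⟨ρ - dist z' z, by linarith [min_le_right ε ρ], ?_⟩
    filter_upwards [hz] with w hw hwb
    apply hw
    rw [mem_ball] at hwb ⊢
    linarith [dist_triangle w z' z]
  have hWn : (G ∩ W).Nonempty := by
    obtain ⟨z₀, ρ, hρ, hsubG, h0⟩ := hz0
    have hz : z₀ ∈ G := hsubG (mem_ball_self hρ)
    exact ⟨z₀, hz, hz, ρ, hρ, h0⟩
  have hWc : closure W ∩ G ⊆ W := by
    rintro z ⟨hzc, hzG⟩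
    obtain ⟨ε, hε, hεG⟩ := Metric.isOpen_iff.1 hGo z hzG
    set d : ℝ := ε / 8 with hd
    have hd0 : 0 < d := by positivity
    have hball : ball z (8 * d) ⊆ G := by
      have : 8 * d = ε := by
        rw [hd]
        ring
      rw [this]
      exact hεG
    obtain ⟨z', hz'W, hz'd⟩ := Metric.mem_closure_iff.1 hzc d hd0
    obtain ⟨-, ρ', hρ', h0'⟩ := hz'W
    -- a generic point
    have hae : ∀ᵐ w : ℂ, (w ∈ ball z' ρ' → u w = 0) ∧ u w ≤ av (4 * d) u w := by
      filter_upwards [h0', hsub (4 * d) (by positivity)] with w h1 h2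
      exact ⟨h1, h2⟩
    have hdense := Measure.dense_of_ae hae
    obtain ⟨z'', hz'', hz''b⟩ := hdense.exists_mem_open
      (U := ball z' (min ρ' d)) isOpen_ball ⟨z', mem_ball_self (lt_min hρ' hd0)⟩
    obtain ⟨hz''1, hz''2⟩ := hz''
    have hz''0 := hz''1 (ball_subset_ball (min_le_left _ _) hz''b)
    have hz''d : dist z'' z' < d := by
      exact lt_of_lt_of_le (mem_ball.1 hz''b) (min_le_right _ _)
    rw [hz''0] at hz''2
    have hzz : dist z z'' < 2 * d := by
      have h1 := dist_triangle z z' z''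
      rw [dist_comm z' z''] at h1
      linarith
    have hsubG : ball z'' (4 * d) ⊆ G := by
      intro w hw
      apply hball
      rw [mem_ball] at hw ⊢
      have h1 := dist_triangle w z'' z
      rw [dist_comm z'' z] at h1
      linarith
    have hneg : ∀ᵐ w ∂(volume.restrict (ball z'' (4 * d))), 0 ≤ -u w := by
      rw [ae_restrict_iff' measurableSet_ball]
      filter_upwards [hle] with w hw hwb
      have := hw (hsubG hwb)
      linarith
    have hint : IntegrableOn (fun w => -u w) (ball z'' (4 * d)) volume :=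
      ((hu.integrableOn_isCompact (isCompact_closedBall z'' (4 * d))).mono_set
        ball_subset_closedBall).neg
    have hzero : ∫ w in ball z'' (4 * d), -u w = 0 := by
      refine le_antisymm ?_ (integral_nonneg_of_ae hneg)
      unfold av at hz''2
      rw [setAverage_eq, smul_eq_mul] at hz''2
      have hr : 0 < volume.real (ball z'' (4 * d)) := by
        unfold Measure.real
        exact ENNReal.toReal_pos (measure_ball_pos volume _ (by positivity)).ne'
          measure_ball_lt_top.ne
      rw [integral_neg]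
      have h1 : 0 ≤ ∫ w in ball z'' (4 * d), u w := by
        by_contra hlt
        rw [not_le] at hlt
        have := mul_neg_of_pos_of_neg (inv_pos.2 hr) hlt
        linarith
      linarith
    have h0 : ∀ᵐ w ∂(volume.restrict (ball z'' (4 * d))), -u w = 0 := by
      have := (integral_eq_zero_iff_of_nonneg_ae hneg hint).1 hzero
      filter_upwards [this] with w hw
      exact hw
    rw [ae_restrict_iff' measurableSet_ball] at h0
    refine ⟨hzG, 2 * d, by positivity, ?_⟩
    filter_upwards [h0] with w hw hwb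
    have h1 : w ∈ ball z'' (4 * d) := by
      rw [mem_ball] at hwb ⊢
      linarith [dist_triangle w z z'']
    have h2 := hw h1
    linarith
  have hGW : G ⊆ W := hGc.subset_of_closure_inter_subset hWo hWn hWc
  have hnull : volume {z | z ∈ G ∧ u z ≠ 0} = 0 := by
    refine measure_null_of_locally_null _ fun z hz => ?_
    obtain ⟨-, ρ, hρ, h0⟩ := hGW hz.1
    refine ⟨ball z ρ ∩ {z | z ∈ G ∧ u z ≠ 0}, ?_, ?_⟩
    · exact inter_mem (mem_nhdsWithin_of_mem_nhds (ball_mem_nhds z hρ)) self_mem_nhdsWithin
    · refine measure_mono_null ?_ (ae_iff.1 h0)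
      rintro w ⟨hw1, hw2⟩
      simp only [mem_ofPred_eq]
      intro h
      exact hw2.2 (h hw1)
  rw [ae_iff]
  refine measure_mono_null (fun z hz => ?_) hnull
  simp only [mem_ofPred_eq, Classical.not_imp] at hz ⊢
  exact hz

end Pool.Agent.H74.LIM
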